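import Pool.Agent.TH905.VF.Kum
import Pool.Agent.TH905.VF.Gen
import Pool.Agent.Q273.AD.Fin
import Pool.Agent.Q273.PN.Mono

/-!
# Kummer covers of hyperplane arrangements near almost every adelic point
-/

set_option autoImplicit false
set_option linter.unusedSectionVars false

namespace Q273.KX

open MeasureTheory NumberField IsDedekindDomain Height LinearAlgebra.Projectivization
open NumberField.mixedEmbedding NumberField.InfinitePlace
open Pool.Agent.Results.MP_9ec3f0_nt.HyperplaneArrangements (lin lam hW N1)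
open Pool.Agent.TH905.VF (ld hB proxB exists_S0 N1_le' keyB)
open Q273.AD (FinAd prA)
open Q273.MV (aff)

variable {K : Type} [Field K] [NumberField K] {n r : ℕ}

open scoped Classical in
/-- the truncated counting function is bounded by the discriminant of a point of the Kummer cover -/
theorem kum_key (hr : 1 ≤ r) (a : Fin r → Fin (n + 1) → K) (ha : ∀ i, a i ≠ 0)
    (hspan : Submodule.span K (Set.range a) = ⊤) :
    ∃ S₀ : Finset (HeightOneSpectrum (𝓞 K)), ∀ x : ℙ K (Fin (n + 1) → K),
      (∀ i, lin (a i) x.rep ≠ 0) → ∀ (m : ℕ) (L : Type) [Field L] [NumberField L] [Algebra K L]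
      (y : Fin r → L) (t : L) (S : Finset (HeightOneSpectrum (𝓞 K))), m ≠ 0 → t ≠ 0 →
      (∀ i, y i ^ m = t * algebraMap K L (lin (a i) x.rep)) →
      N1 S₀ a x.rep + proxB S y ≤
        ld K L + ∑ v ∈ S, Real.log (Ideal.absNorm v.asIdeal) + hB K y := by
  obtain ⟨S₀, hS₀⟩ := exists_S0 a hspan
  refine ⟨S₀, fun x hne m L _ _ _ y t S hm ht hy => ?_⟩
  have hy0 : ∀ i, y i ≠ 0 := by
    intro i h
    have := hy i
    rw [h, zero_pow hm, eq_comm, mul_eq_zero, map_eq_zero] at this
    rcases this with h | h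
    · exact ht h
    · exact hne i h
  have h0 : N1 S₀ a x.rep ≤ ld K L + ∑ v ∈ S, Real.log (Ideal.absNorm v.asIdeal) + hB K y -
      proxB S y := by
    refine N1_le' ha S₀ hS₀ x.rep x.rep_nonzero hne _ fun R hR => ?_
    have h3 := keyB (by omega) m (fun i => lin (a i) x.rep) y hy0 t ht hy S (R \ S) (by
      intro v hv
      rw [Finset.mem_sdiff] at hv
      exact ⟨hv.2, hR v hv.1⟩)
    have h4 : ∑ v ∈ R, Real.log (Ideal.absNorm v.asIdeal) ≤
        ∑ v ∈ R \ S, Real.log (Ideal.absNorm v.asIdeal) +
          ∑ v ∈ S, Real.log (Ideal.absNorm v.asIdeal) := by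
      have h5 : R ⊆ (R \ S) ∪ S := fun v hv => by
        by_cases h : v ∈ S
        · exact Finset.mem_union_right _ h
        · exact Finset.mem_union_left _ (Finset.mem_sdiff.2 ⟨hv, h⟩)
      rw [← Finset.sum_union Finset.sdiff_disjoint]
      exact Finset.sum_le_sum_of_subset_of_nonneg h5 fun v _ _ => Real.log_natCast_nonneg _
    linarith
  linarith

end Q273.KX
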