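import Pool.Agent.Q273.KX.Law

/-!
# Fermat intersections near almost every adelic point
-/

set_option autoImplicit false
set_option linter.unusedSectionVars false

namespace Q273.KX

open MeasureTheory NumberField IsDedekindDomain Height LinearAlgebra.Projectivization
open NumberField.mixedEmbedding NumberField.InfinitePlace
open Pool.Agent.H57R3.VJ (lin)
open Pool.Agent.TH905.VF (ld ht prox gen_main E1)
open Pool.Agent.Results.MP_9ec3f0_nt.HyperplaneExceptions (expo)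
open Q273.AD (FinAd prA up1A fae')
open Q273.MV (aff)

variable {K : Type} [Field K] [NumberField K] {n : ℕ}

/-- general position -/
def GP {n q : ℕ} (a : Fin q → Fin (n + 1) → K) : Prop :=
  ∀ I : Finset (Fin q), I.card = n + 1 → LinearIndependent K (fun i : I => a i)

/-- the points above which some point of some Fermat intersection violates the inequality -/
def Viol {q : ℕ} (S : Finset (HeightOneSpectrum (𝓞 K))) (a : Fin q → Fin (n + 1) → K) (θ c : ℝ)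
    (P : ℙ K (Fin (n + 1) → K)) : Prop :=
  ∃ (m : ℕ) (L : Type) (_ : Field L) (_ : NumberField L) (_ : Algebra K L) (y : Fin q → L) (t : L),
    m ≠ 0 ∧ t ≠ 0 ∧ (∀ i, y i ^ m = t * algebraMap K L (lin (a i) P.rep)) ∧
      ld K L + c < (θ * m - q) * ht K y + prox S y

lemma expo_nonneg (n q : ℕ) (hq : n + 1 ≤ q) (θ : ℝ) (h0 : 0 ≤ θ) : 0 ≤ expo n q θ := by
  have hq1 : (n : ℝ) + 1 ≤ q := by exact_mod_cast hq
  have hn0 : (0 : ℝ) ≤ n := Nat.cast_nonneg n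
  have hq0 : (0 : ℝ) < q := by linarith
  refine le_min ?_ ?_
  · refine mul_nonneg h0 ?_
    have h1 : ((q - n).choose (n + 1) : ℝ) ≤ (q.choose (n + 1) : ℝ) := by
      exact_mod_cast Nat.choose_le_choose (n + 1) (Nat.sub_le q n)
    have h2 : (0 : ℝ) < (q.choose (n + 1) : ℝ) := by exact_mod_cast Nat.choose_pos hq
    have h3 := (div_le_one h2).2 h1
    linarith
  · refine mul_nonneg (by linarith) ?_
    by_cases h : n = 0
    · subst h
      simp
    · have hn1 : (1 : ℝ) ≤ n := by exact_mod_cast Nat.one_le_iff_ne_zero.2 h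
      have hqq : 0 < (q : ℝ) * ((q : ℝ) - 1) := mul_pos hq0 (by linarith)
      have h1 : (n : ℝ) * ((q : ℝ) - θ) / ((q : ℝ) * ((q : ℝ) - 1)) ≤ 1 := by
        rw [div_le_one hqq]
        nlinarith
      linarith

/-- the exponent is Lipschitz -/
lemma expo_lip (n q : ℕ) (hn : 1 ≤ n) (hq : n + 1 ≤ q) : ∃ C : ℝ, 0 < C ∧ ∀ θ θ' : ℝ, θ ≤ θ' →
    expo n q θ' ≤ expo n q θ + C * (θ' - θ) := by
  have hq1 : (n : ℝ) + 1 ≤ q := by exact_mod_cast hq
  have hn1 : (1 : ℝ) ≤ n := by exact_mod_cast hn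
  have hqq : 0 < (q : ℝ) * ((q : ℝ) - 1) := mul_pos (by linarith) (by linarith)
  set c1 : ℝ := 1 - ((q - n).choose (n + 1) : ℝ) / (q.choose (n + 1) : ℝ) with hc1
  set c2 : ℝ := ((n : ℝ) + 1) * (n / ((q : ℝ) * ((q : ℝ) - 1))) with hc2
  have hc20 : 0 ≤ c2 := by positivity
  refine ⟨|c1| + c2 + 1, by positivity, fun θ θ' h => ?_⟩
  have h0 : 0 ≤ θ' - θ := by linarith
  have e1 : θ' * c1 ≤ θ * c1 + (|c1| + c2 + 1) * (θ' - θ) := by
    have h1 := le_abs_self c1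
    nlinarith [mul_nonneg (add_nonneg hc20 zero_le_one) h0, mul_le_mul_of_nonneg_right h1 h0]
  have e2 : ((n : ℝ) + 1) * (1 - (n : ℝ) * ((q : ℝ) - θ') / ((q : ℝ) * ((q : ℝ) - 1))) =
      ((n : ℝ) + 1) * (1 - (n : ℝ) * ((q : ℝ) - θ) / ((q : ℝ) * ((q : ℝ) - 1))) +
        c2 * (θ' - θ) := by
    rw [hc2]
    field_simp
    ring
  have e3 : c2 * (θ' - θ) ≤ (|c1| + c2 + 1) * (θ' - θ) :=
    mul_le_mul_of_nonneg_right (by linarith [abs_nonneg c1]) h0
  show min _ _ ≤ min _ _ + _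
  rw [min_add]
  refine min_le_min ?_ ?_
  · exact e1
  · exact e2.le.trans (by linarith)

lemma Viol.mono {q : ℕ} {S : Finset (HeightOneSpectrum (𝓞 K))} {a : Fin q → Fin (n + 1) → K}
    {θ θ' c c' : ℝ} (hθ : θ ≤ θ') (hc : c' ≤ c) {P : ℙ K (Fin (n + 1) → K)}
    (h : Viol S a θ c P) : Viol S a θ' c' P := by
  obtain ⟨m, L, i1, i2, i3, y, t, hm, ht', hy, hv⟩ := h
  refine ⟨m, L, i1, i2, i3, y, t, hm, ht', hy, ?_⟩
  have h1 : 0 ≤ ht K y := div_nonneg (logHeight_nonneg y) (Nat.cast_nonneg _)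
  have h2 : (θ * m - q) * ht K y ≤ (θ' * m - q) * ht K y :=
    mul_le_mul_of_nonneg_right (by
      have : θ * m ≤ θ' * m := mul_le_mul_of_nonneg_right hθ (Nat.cast_nonneg _)
      linarith) h1
  linarith

open scoped Classical in
/-- the law in general position -/
theorem lawG (hn : 1 ≤ n) [MeasurableSpace (FinAd K n)] [BorelSpace (FinAd K n)]
    (μ : Measure (FinAd K n)) [IsFiniteMeasure μ] [μ.IsAddLeftInvariant] :
    ∀ᵐ p : (Fin n → mixedSpace K) × FinAd K n ∂(volume.prod μ),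
      ∀ (q : ℕ), n + 1 ≤ q → ∀ a : Fin q → Fin (n + 1) → K, GP a →
      ∀ (S V : Finset (HeightOneSpectrum (𝓞 K))) (θ c ε : ℝ), 0 ≤ θ → 0 < ε →
        {P : ℙ K (Fin (n + 1) → K) | (∀ i, lin (a i) P.rep ≠ 0) ∧
          (expo n q θ + ε) * Real.log P.mulHeight ≤ n * prA V p (aff P) ∧
          Viol S a θ c P}.Finite := by
  have : Countable K := Q273.Apx.countable_numberField K
  have : Countable (HeightOneSpectrum (𝓞 K)) := Q273.Apx.countable_primes K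
  have : Countable (ℙ K (Fin (n + 1) → K)) := by
    have h : Function.Surjective (fun v : {v : Fin (n + 1) → K // v ≠ 0} =>
        Projectivization.mk K v.1 v.2) := fun P => ⟨⟨P.rep, P.rep_nonzero⟩, P.mk_rep⟩
    exact h.countable
  let ι : Type := (Σ q : ℕ, {a : Fin q → Fin (n + 1) → K // n + 1 ≤ q ∧ GP a}) ×
    Finset (HeightOneSpectrum (𝓞 K)) × {θ : ℚ // 0 ≤ θ} × ℕ
  have key : ∀ i : ι, ∀ᵐ p : (Fin n → mixedSpace K) × FinAd K n ∂(volume.prod μ),
      ∀ V : Finset (HeightOneSpectrum (𝓞 K)), ∀ ε : ℝ, 0 < ε → ∃ C : ℝ,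
      ∀ P : ℙ K (Fin (n + 1) → K), ((∀ l, lin (i.1.2.1 l) P.rep ≠ 0) ∧
        Viol i.2.1 i.1.2.1 ((i.2.2.1.1 : ℚ) : ℝ) (-(i.2.2.2 : ℝ)) P) →
        (n : ℝ) * prA V p (aff P) ≤
          (max (expo n i.1.1 ((i.2.2.1.1 : ℚ) : ℝ)) 0 + ε) * Real.log P.mulHeight + C := by
    rintro ⟨⟨q, a, hq, ha⟩, S, ⟨θ, hθ0⟩, c⟩
    have hθ0' : (0 : ℝ) ≤ (θ : ℝ) := by exact_mod_cast hθ0
    refine up1A fae' hn μ aff (fun P => P.mulHeight) {P | (∀ l, lin (a l) P.rep ≠ 0) ∧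
        Viol S a (θ : ℝ) (-(c : ℝ)) P}
      (fun P _ => by rw [Q273.MV.mulHeight_rep]; exact one_le_mulHeight P.rep)
      (le_max_right _ _) (fun δ hδ => ?_)
    obtain ⟨M, hM⟩ := gen_main K n q hn hq a ha S (θ : ℝ) (-(c : ℝ)) δ hθ0' hδ
    refine ⟨max M 0, fun X hX => ?_⟩
    have hset : {P : ℙ K (Fin (n + 1) → K) | P ∈ {P : ℙ K (Fin (n + 1) → K) |
        (∀ l, lin (a l) P.rep ≠ 0) ∧ Viol S a (θ : ℝ) (-(c : ℝ)) P} ∧
        P.mulHeight ≤ X} = E1 S a (θ : ℝ) (-(c : ℝ)) X := by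
      ext P
      constructor
      · rintro ⟨⟨h1, h2⟩, h3⟩
        exact ⟨h1, h3, h2⟩
      · rintro ⟨h1, h3, h2⟩
        exact ⟨⟨h1, h2⟩, h3⟩
    rw [hset]
    refine ⟨(hM X hX).1, (hM X hX).2.trans ?_⟩
    refine mul_le_mul (le_max_left _ _) ?_ (by positivity) (le_max_right _ _)
    exact Real.rpow_le_rpow_of_exponent_le hX (by linarith [le_max_left (expo n q (θ : ℝ)) 0])
  filter_upwards [ae_all_iff.2 key] with p hp
  intro q hq a ha S V θ c ε hθ hε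
  obtain ⟨C1, hC1, hlip⟩ := expo_lip n q hn hq
  obtain ⟨θ', hθ'1, hθ'2⟩ := exists_rat_btwn (show θ < θ + ε / (4 * C1) by
    have : 0 < ε / (4 * C1) := by positivity
    linarith)
  have hθ'0 : (0 : ℚ) ≤ θ' := by
    have : (0 : ℝ) ≤ θ' := hθ.trans hθ'1.le
    exact_mod_cast this
  obtain ⟨N, hN⟩ := exists_nat_ge (-c)
  obtain ⟨C, hC⟩ := hp ⟨⟨q, a, hq, ha⟩, S, ⟨θ', hθ'0⟩, N⟩ V (ε / 4) (by positivity)
  have hexp : expo n q (θ' : ℝ) ≤ expo n q θ + ε / 4 := by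
    refine (hlip θ θ' hθ'1.le).trans ?_
    have h1 : C1 * ((θ' : ℝ) - θ) ≤ C1 * (ε / (4 * C1)) :=
      mul_le_mul_of_nonneg_left (by linarith) hC1.le
    have h2 : C1 * (ε / (4 * C1)) = ε / 4 := by field_simp
    linarith
  obtain ⟨M, hM⟩ := gen_main K n q hn hq a ha S (θ' : ℝ) (-(N : ℝ)) 1
    (by exact_mod_cast hθ'0) one_pos
  have hb : 1 ≤ Real.exp (max (2 * C / ε) 0) := Real.one_le_exp (le_max_right _ _)
  refine ((hM _ hb).1).subset ?_
  rintro P ⟨h1, h2, h3⟩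
  have hv : Viol S a (θ' : ℝ) (-(N : ℝ)) P := h3.mono hθ'1.le (by linarith)
  have h4 := hC P ⟨h1, hv⟩
  have h0 : 0 ≤ Real.log P.mulHeight := Q273.MV.log_mulHeight_nonneg P
  have hpos : 0 < P.mulHeight := by
    rw [Q273.MV.mulHeight_rep]
    exact lt_of_lt_of_le one_pos (one_le_mulHeight P.rep)
  have e0 : 0 ≤ expo n q (θ' : ℝ) := expo_nonneg n q hq _ (by exact_mod_cast hθ'0)
  simp only [max_eq_left e0] at h4
  have h5 : (expo n q θ + ε) * Real.log P.mulHeight ≤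
      (expo n q θ + ε / 2) * Real.log P.mulHeight + C := by
    refine (h2.trans h4).trans ?_
    have : (expo n q (θ' : ℝ) + ε / 4) * Real.log P.mulHeight ≤
        (expo n q θ + ε / 2) * Real.log P.mulHeight :=
      mul_le_mul_of_nonneg_right (by linarith) h0
    linarith
  have h6 : Real.log P.mulHeight ≤ 2 * C / ε := by
    rw [le_div_iff₀ hε]
    linarith
  refine ⟨h1, ?_, hv⟩
  rw [← Real.log_le_iff_le_exp hpos]
  exact h6.trans (le_max_left _ _)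

end Q273.KX
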