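import Pool.Agent.Q273.KX.LawE
import Pool.Agent.TH905.VF.Abs

/-!
# Kummer covers of hyperplane arrangements near almost every adelic point: the laws
-/

set_option autoImplicit false
set_option linter.unusedSectionVars false

namespace Q273.KX

open MeasureTheory NumberField IsDedekindDomain Height LinearAlgebra.Projectivization
open NumberField.mixedEmbedding NumberField.InfinitePlace
open Pool.Agent.Results.MP_9ec3f0_nt.HyperplaneArrangements (lin lam hW N1)
open Pool.Agent.TH905.VF (ld hB proxB)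
open Q273.AD (FinAd prA fae')
open Q273.MV (aff)

variable {K : Type} [Field K] [NumberField K] {n r : ℕ}

/-- the inequality for all points above `x` with left hand side `t` -/
def Abv (a : Fin r → Fin (n + 1) → K) (x : ℙ K (Fin (n + 1) → K)) (t C : ℝ) : Prop :=
  ∀ (m : ℕ) (L : Type) [Field L] [NumberField L] [Algebra K L]
      (y : Fin r → L) (t' : L) (S : Finset (HeightOneSpectrum (𝓞 K))), m ≠ 0 → t' ≠ 0 →
      (∀ i, y i ^ m = t' * algebraMap K L (lin (a i) x.rep)) →
      t + proxB S y - hB K y ≤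
        ld K L + ∑ v ∈ S, Real.log (Ideal.absNorm v.asIdeal) + C

lemma Abv.mono {a : Fin r → Fin (n + 1) → K} {x : ℙ K (Fin (n + 1) → K)} {t t' C C' : ℝ}
    (h : Abv a x t C) (h1 : t' - C' ≤ t - C) : Abv a x t' C' := by
  intro m L _ _ _ y s S hm hs hy
  have := h m L y s S hm hs hy
  linarith

/-- an essential arrangement contains a coordinate system -/
lemma exists_basis (a : Fin r → Fin (n + 1) → K)
    (hspan : Submodule.span K (Set.range a) = ⊤) :
    ∃ g : Fin (n + 1) → Fin r, LinearIndependent K (fun i => a (g i)) := by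
  obtain ⟨b, hb1, hb2, hb3⟩ := exists_linearIndependent K (Set.range a)
  rw [hspan] at hb2
  have hfin : b.Finite := (Set.finite_range a).subset hb1
  have : Fintype b := hfin.fintype
  have e1 := finrank_span_set_eq_card hb3
  rw [hb2, finrank_top, Module.finrank_fin_fun, Set.toFinset_card] at e1
  have e : Fin (n + 1) ≃ b := (Fintype.equivFinOfCardEq e1.symm).symm
  have h2 : ∀ i : Fin (n + 1), ∃ l, a l = (e i : Fin (n + 1) → K) := fun i => hb1 (e i).2
  choose g hg using h2
  refine ⟨g, ?_⟩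
  have : (fun i => a (g i)) = (fun i : b => (i : Fin (n + 1) → K)) ∘ e := by
    funext i
    exact hg i
  rw [this]
  exact hb3.comp _ e.injective

open scoped Classical in
/-- the laws for all essential arrangements -/
theorem lawKum (hn : 1 ≤ n) [MeasurableSpace (FinAd K n)] [BorelSpace (FinAd K n)]
    (μ : Measure (FinAd K n)) [IsFiniteMeasure μ] [μ.IsAddLeftInvariant] :
    ∀ᵐ p : (Fin n → mixedSpace K) × FinAd K n ∂(volume.prod μ),
      ∀ (r : ℕ) (a : Fin r → Fin (n + 1) → K), (∀ i, a i ≠ 0) →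
      Submodule.span K (Set.range a) = ⊤ → ∀ (V : Finset (HeightOneSpectrum (𝓞 K))) (ε : ℝ),
      0 < ε → ∃ C : ℝ, ∀ x : ℙ K (Fin (n + 1) → K), (∀ i, lin (a i) x.rep ≠ 0) →
        Abv a x (n * prA V p (aff x)) (ε * Real.log x.mulHeight + C) ∧
        (((n : ℝ) + 1 / 2 + ε) * Real.log x.mulHeight ≤ n * prA V p (aff x) →
          Abv a x (n * prA V p (aff x) + hW a x.rep - ((n : ℝ) + 1) * Real.log x.mulHeight)
            (ε * Real.log x.mulHeight + C)) := by
  filter_upwards [Q273.AD.lawA Q273.AD.fae' hn μ, Q273.PN.lawS Q273.AD.fae' hn μ] with p h1 h2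
  intro r a ha hspan V ε hε
  have hr : 1 ≤ r := by
    by_contra h
    have hr0 : r = 0 := by omega
    subst hr0
    obtain ⟨g, -⟩ := exists_basis a hspan
    exact (g 0).elim0
  obtain ⟨S₀, hS₀⟩ := kum_key hr a ha hspan
  obtain ⟨g, hg⟩ := exists_basis a hspan
  obtain ⟨C1, hC1⟩ := h1 r a ha S₀ V ε hε
  obtain ⟨C2, hC2⟩ := h2 (fun i => a (g i)) hg S₀ V ε hε
  refine ⟨max C1 C2, fun x hx => ⟨?_, fun hle => ?_⟩⟩
  · intro m L _ _ _ y t S hm ht hy
    have e1 := hS₀ x hx m L y t S hm ht hy
    have e2 : n * prA V p (aff x) ≤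
        N1 S₀ (fun i => a (g i)) x.rep + ε * Real.log x.mulHeight + C2 := hC2 x fun i => hx _
    have e3 : N1 S₀ (fun i => a (g i)) x.rep ≤ N1 S₀ a x.rep :=
      Q273.PN.N1_mono S₀ ha x.rep_nonzero hx g
    have e4 := le_max_right C1 C2
    linarith
  · intro m L _ _ _ y t S hm ht hy
    have e1 := hS₀ x hx m L y t S hm ht hy
    have e2 : n * prA V p (aff x) + (hW a x.rep - N1 S₀ a x.rep) ≤
        ((n : ℝ) + 1 + ε) * Real.log x.mulHeight + C1 := hC1 x hx (Or.inl hle)
    have e4 := le_max_left C1 C2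
    linarith

end Q273.KX
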